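import Pool.Agent.Lib.MP_95bb8c_al.GW.NearRegMain

set_option autoImplicit false

namespace Pool.Agent.Results.MP_95bb8c_al.NearRegular

open Pool.Agent.Lib.MP_95bb8c_al Pool.Agent.Lib.MP_95bb8c_al.GW

/-- The tiling conjecture (in its graph form) near the lists in which all generators occur equally
often. Let `ε > 0`. If each generator occurs at most `D` times and at least
`(1 - ε ^ 2 / (160 n ^ 3)) D` times, any two vertices of the Whitehead graph are joined by at least
`ε D` edges, no two vertices are joined by more than half of the edges at a vertex of degree less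
than `D`, and each odd cut with at least three vertices on both sides has at least `(1 + ε) D`
edges, then the list is polygonal. -/
theorem result (n : ℕ) (hn : 2 < n) (U : List (List (Letter n))) (hU : CycRed U)
    (D : ℕ) (hD : 0 < D) (ε : ℝ) (hε : 0 < ε)
    (hocc : ∀ a : Fin n, occ U a ≤ D)
    (hnear : ∀ a : Fin n, (1 - ε ^ 2 / (160 * (n : ℝ) ^ 3)) * D ≤ occ U a)
    (hmult : ∀ u v : Letter n, u ≠ v → ε * D ≤ mult U u v)
    (hhalf : ∀ u v : Letter n, u ≠ v → occ U v.1 < D → 2 * mult U u v ≤ occ U v.1)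
    (hcut : ∀ S : Finset (Letter n), Odd S.card → 3 ≤ S.card → S.card + 3 ≤ 2 * n →
      (1 + ε) * D ≤ (cut (src U) (tgt U) S).card) :
    ∃ L : List (Finset (Pos U)),
      (∀ C ∈ L, IsCycle (src U) (tgt U) C) ∧
      (∃ C ∈ L, 3 ≤ C.card) ∧
      ∀ v : Letter n, ∀ e ∈ star U v, ∀ f ∈ star U v,
        (L.countP fun C => e ∈ C ∧ f ∈ C) =
          (L.countP fun C => conMap U v e ∈ C ∧ conMap U v f ∈ C) := by
  refine near_regular_real hn hU D hD ε hε hocc hmult hhalf hcut ?_
  intro a
  have h1 := hnear a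
  have hn0 : (0 : ℝ) < 160 * (n : ℝ) ^ 3 := by
    have : (0 : ℝ) < n := by exact_mod_cast (by omega : 0 < n)
    positivity
  have h2 : (D : ℝ) - occ U a ≤ ε ^ 2 / (160 * (n : ℝ) ^ 3) * D := by linarith
  have h3 := mul_le_mul_of_nonneg_left h2 hn0.le
  have h4 : 160 * (n : ℝ) ^ 3 * (ε ^ 2 / (160 * (n : ℝ) ^ 3) * D) = ε ^ 2 * D := by
    field_simp
  linarith

end Pool.Agent.Results.MP_95bb8c_al.NearRegular
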