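import Pool.Agent.Lib.MP_95bb8c_al.PS.RealForm

set_option autoImplicit false

namespace Pool.Agent.Results.MP_95bb8c_al.PseudoRandom

open Pool.Agent.Lib.MP_95bb8c_al

variable {n : ℕ}

/-- The tail of the dart (directed edge) `a` of the Whitehead graph: the edge `p` gives the two
darts `(p, true)` from `src U p` to `tgt U p` and `(p, false)` back. -/
def tail (U : List (List (Letter n))) (a : Pos U × Bool) : Letter n :=
  if a.2 then src U a.1 else tgt U a.1

/-- The head of the dart `a`. -/
def head (U : List (List (Letter n))) (a : Pos U × Bool) : Letter n :=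
  if a.2 then tgt U a.1 else src U a.1

/-- The number of edges of the Whitehead graph which join `u` and `v`. -/
def mult (U : List (List (Letter n))) (u v : Letter n) : ℕ :=
  (Finset.univ.filter fun p : Pos U =>
    (src U p = u ∧ tgt U p = v) ∨ (src U p = v ∧ tgt U p = u)).card

/-- The number of reduced paths with `m` steps from the dart `a` to the dart `b` in the Whitehead
graph: sequences `a = p 0, …, p m = b` of darts, each of which starts where the one before ends and
ends at another vertex than the one at which the one before starts. -/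
noncomputable def paths (U : List (List (Letter n))) (m : ℕ) (a b : Pos U × Bool) : ℕ :=
  Nat.card {p : Fin (m + 1) → Pos U × Bool // p 0 = a ∧ p (Fin.last m) = b ∧
    ∀ i : Fin m, tail U (p i.succ) = head U (p i.castSucc) ∧
      head U (p i.succ) ≠ tail U (p i.castSucc)}

/-- The tiling conjecture (in its graph form) for all lists whose Whitehead graph is pseudorandom:
no generator occurs more than `D` times, no two vertices are joined by more than `M` edges, any two
darts are joined by at least `θ` times the expected number `D ^ m / (number of edges)` of reduced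
paths with `m` steps, and `D` exceeds `M` by a factor polynomial in `m`, `1 / θ` and `log n`.
Nothing else is assumed. -/
theorem result (hn : 1 < n) (U : List (List (Letter n))) (hne : U ≠ []) (hU : CycRed U)
    (D M m : ℕ) (θ : ℝ) (hθ : 0 < θ) (hD : ∀ a, occ U a ≤ D)
    (hM : ∀ u v : Letter n, u ≠ v → mult U u v ≤ M)
    (hpath : ∀ a b : Pos U × Bool, θ * (D : ℝ) ^ m / Fintype.card (Pos U) ≤ paths U m a b)
    (hlog : 10 ^ 10 * (m * Real.log (n * m / θ)) ^ 3 * M ≤ θ ^ 5 * D) :
    ∃ L : List (Finset (Pos U)),
      (∀ C ∈ L, IsCycle (src U) (tgt U) C) ∧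
      (∃ C ∈ L, 3 ≤ C.card) ∧
      ∀ v : Letter n, ∀ e ∈ star U v, ∀ f ∈ star U v,
        (L.countP fun C => e ∈ C ∧ f ∈ C) =
          (L.countP fun C => conMap U v e ∈ C ∧ conMap U v f ∈ C) := by
  have hE : (0 : ℝ) < (Fintype.card (Pos U) : ℝ) := by
    have h3 : 0 < U.length := List.length_pos_of_ne_nil hne
    have h4 : 0 < (U.get ⟨0, h3⟩).length :=
      List.length_pos_of_ne_nil (hU.1 _ (List.get_mem _ _))
    have h5 : 0 < Fintype.card (Pos U) := Fintype.card_pos_iff.2 ⟨⟨⟨0, h3⟩, ⟨0, h4⟩⟩⟩
    exact_mod_cast h5
  refine PS.pseudo_real hn hU hne D M m θ hθ hD ?_ ?_ hlog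
  · intro u v huv
    refine le_trans (Finset.card_le_card ?_) (hM u v huv)
    intro p hp
    unfold GW.J at hp
    rw [Finset.mem_filter] at hp ⊢
    exact ⟨Finset.mem_univ _, hp.2.2⟩
  · intro a b
    have h1 := hpath a b
    rw [div_le_iff₀ hE] at h1
    have h2 : PS.rpaths U m a b = paths U m a b := rfl
    rw [h2]
    linarith

end Pool.Agent.Results.MP_95bb8c_al.PseudoRandom
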